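import Pool.Agent.H34.EV.Aff
import Pool.Agent.H34.EV.Sim

/-!
# [H34 CF SM] Sets of integer points which are small in every large cube

`Small P`: for each `ε > 0`, in each cube of side `z ≥ X₀ (ε)` at most `ε z ^ k` points have `P`.
`small_fib`: if `Q` is small in dimension `j`, `x` an affinely independent family of `j + 1` points, then the `a` such that
`Q ((x_1 - x_0) a, .., (x_j - x_0) a)` are small.
-/

set_option autoImplicit false

namespace Pool.Agent.H34.CF

open Finset Pool.Agent.H34.EV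

/-- comparison of filters with different decidability instances -/
theorem cle {α : Type} {s : Finset α} {p q : α → Prop} {dp : DecidablePred p} {dq : DecidablePred q}
    (h : ∀ a ∈ s, p a → q a) : (@Finset.filter α p dp s).card ≤ (@Finset.filter α q dq s).card := by
  refine card_le_card fun a ha => ?_
  rw [mem_filter] at ha ⊢
  exact ⟨ha.1, h a ha.1 ha.2⟩

/-- the scalar product -/
def ip {k : ℕ} (x a : Fin k → ℤ) : ℤ := ∑ l, x l * a l

theorem ip_sub {k : ℕ} (x y a : Fin k → ℤ) : ip (x - y) a = ip x a - ip y a := by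
  unfold ip
  rw [← sum_sub_distrib]
  refine sum_congr rfl fun l _ => ?_
  rw [Pi.sub_apply]
  ring

open Classical in
/-- few points in every large cube -/
def Small {k : ℕ} (P : (Fin k → ℤ) → Prop) : Prop :=
  ∀ ε : ℝ, 0 < ε → ∃ X₀ : ℕ, ∀ (z : ℕ) (b : Fin k → ℤ), X₀ ≤ z →
    (((Fintype.piFinset (fun l : Fin k => Ioc (b l) (b l + z))).filter (fun a => P a)).card : ℝ) ≤ ε * (z : ℝ) ^ k

theorem small_mono {k : ℕ} {P Q : (Fin k → ℤ) → Prop} (h : ∀ a, P a → Q a) (hQ : Small Q) : Small P := by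
  intro ε hε
  obtain ⟨X₀, hX⟩ := hQ ε hε
  exact ⟨X₀, fun z b hz => le_trans (Nat.cast_le.2 (cle fun a _ ha => h a ha)) (hX z b hz)⟩

theorem small_union {k : ℕ} {ι : Type} (I : Finset ι) {P : ι → (Fin k → ℤ) → Prop} (h : ∀ i ∈ I, Small (P i)) :
    Small (fun a => ∃ i ∈ I, P i a) := by
  classical
  intro ε hε
  have h1 : ∀ i : ι, ∃ X₀ : ℕ, i ∈ I → ∀ (z : ℕ) (b : Fin k → ℤ), X₀ ≤ z →
      (((Fintype.piFinset (fun l : Fin k => Ioc (b l) (b l + z))).filter (fun a => P i a)).card : ℝ) ≤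
        ε / (I.card + 1) * (z : ℝ) ^ k := by
    intro i
    by_cases hi : i ∈ I
    · obtain ⟨X₀, hX⟩ := h i hi (ε / (I.card + 1)) (by positivity)
      refine ⟨X₀, fun _ z b hz => le_trans (Nat.cast_le.2 (cle fun a _ ha => ha)) (hX z b hz)⟩
    · exact ⟨0, fun h => absurd h hi⟩
  choose X₀ hX using h1
  refine ⟨∑ i ∈ I, X₀ i, fun z b hz => ?_⟩
  obtain ⟨Q, hQ⟩ : ∃ Q : Finset (Fin k → ℤ), Q = Fintype.piFinset (fun l : Fin k => Ioc (b l) (b l + z)) := ⟨_, rfl⟩
  have h2 : ((Q.filter (fun a => ∃ i ∈ I, P i a)).card : ℝ) ≤ ∑ i ∈ I, ((Q.filter (fun a => P i a)).card : ℝ) := by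
    have h3 : Q.filter (fun a => ∃ i ∈ I, P i a) ⊆ I.biUnion (fun i => Q.filter (fun a => P i a)) := by
      intro a ha
      rw [mem_filter] at ha
      obtain ⟨ha1, i, hi, ha2⟩ := ha
      exact mem_biUnion.2 ⟨i, hi, mem_filter.2 ⟨ha1, ha2⟩⟩
    exact_mod_cast (card_le_card h3).trans card_biUnion_le
  have h4 : ∀ i ∈ I, ((Q.filter (fun a => P i a)).card : ℝ) ≤ ε / (I.card + 1) * (z : ℝ) ^ k := by
    intro i hi
    rw [hQ]
    refine hX i hi z b (le_trans ?_ hz)
    exact single_le_sum (f := X₀) (fun _ _ => Nat.zero_le _) hi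
  have h5 : ((Q.filter (fun a => ∃ i ∈ I, P i a)).card : ℝ) ≤ ε * (z : ℝ) ^ k := by
    refine h2.trans ((sum_le_sum h4).trans ?_)
    rw [sum_const, nsmul_eq_mul]
    have h6 : (0 : ℝ) ≤ (I.card : ℝ) := Nat.cast_nonneg _
    have h7 : (I.card : ℝ) * (ε / (I.card + 1) * (z : ℝ) ^ k) = ε * (z : ℝ) ^ k * (I.card / (I.card + 1)) := by ring
    rw [h7]
    refine mul_le_of_le_one_right (by positivity) ?_
    rw [div_le_one (by positivity)]
    linarith
  rw [hQ] at h5
  refine le_trans (Nat.cast_le.2 (cle fun a _ ha => ha)) h5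

/-- the origin is small in dimension one -/
theorem small_zero : Small (fun u : Fin 1 → ℤ => u 0 = 0) := by
  classical
  intro ε hε
  obtain ⟨X₀, hX⟩ := exists_nat_gt (1 / ε)
  refine ⟨X₀, fun z b hz => ?_⟩
  have h1 : ((Fintype.piFinset (fun l : Fin 1 => Ioc (b l) (b l + z))).filter (fun u : Fin 1 → ℤ => u 0 = 0)).card ≤ 1 := by
    rw [card_le_one]
    intro u hu v hv
    rw [mem_filter] at hu hv
    funext l
    have h2 : l = 0 := Subsingleton.elim _ _
    rw [h2, hu.2, hv.2]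
  have h2 : (1 : ℝ) ≤ ε * (z : ℝ) ^ 1 := by
    have h3 : 1 / ε < (z : ℝ) := hX.trans_le (by exact_mod_cast hz)
    rw [div_lt_iff₀ hε] at h3
    rw [pow_one]
    linarith
  refine le_trans ?_ h2
  refine le_trans (Nat.cast_le.2 (cle fun a _ ha => ha)) (le_trans (Nat.cast_le.2 h1) (by norm_num))

/-- a nonsingular matrix for an affinely independent family -/
theorem fam_matrix {k N j : ℕ} (hN : 1 ≤ N) (x : Fin (j + 1) → Fin k → ℤ) (hx : ∀ i l, |x i l| ≤ N)
    (hA : AffineIndependent ℚ (fun i => rat (x i))) :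
    ∃ M ∈ mats k (2 * N), ∃ σ : Fin j → Fin k, Function.Injective σ ∧ ∀ i, M (σ i) = x i.succ - x 0 := by
  classical
  have hxi : Function.Injective x := by
    intro i i' h
    apply hA.injective
    show rat (x i) = rat (x i')
    rw [h]
  obtain ⟨F, hF⟩ : ∃ F : Finset (Fin k → ℤ), F = univ.image x := ⟨_, rfl⟩
  have hmem : ∀ i, x i ∈ F := fun i => by
    rw [hF]
    exact mem_image_of_mem _ (mem_univ _)
  have hFA : AffineIndependent ℚ (fun y : F => rat (y : Fin k → ℤ)) := by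
    have h1 : ∀ y : F, ∃ i, x i = (y : Fin k → ℤ) := by
      rintro ⟨y, hy⟩
      rw [hF, mem_image] at hy
      obtain ⟨i, -, hi⟩ := hy
      exact ⟨i, hi⟩
    choose g hg using h1
    have hgi : Function.Injective g := by
      intro y y' h
      apply Subtype.ext
      rw [← hg, ← hg, h]
    have h2 := hA.comp_embedding ⟨g, hgi⟩
    have h3 : (fun y : F => rat (y : Fin k → ℤ)) = (fun i => rat (x i)) ∘ (⟨g, hgi⟩ : F ↪ Fin (j + 1)) := by
      funext y
      show rat (y : Fin k → ℤ) = rat (x (g y))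
      rw [hg]
    rw [h3]
    exact h2
  obtain ⟨M, hM1, hM2, J, hJ⟩ := aff_matrix hN F (x 0) (hmem 0) (by
    intro y hy l
    rw [hF, mem_image] at hy
    obtain ⟨i, -, rfl⟩ := hy
    exact hx i l) hFA
  refine ⟨M, mem_mats.2 ⟨hM1, hM2⟩, ?_⟩
  have h4 : ∀ i : Fin j, ∃ τ : Fin k, M τ = x i.succ - x 0 := by
    intro i
    have h5 : x i.succ - x 0 ∈ F.image (fun y => y - x 0) := mem_image.2 ⟨_, hmem _, rfl⟩
    rw [hJ, mem_image] at h5
    obtain ⟨c, -, hc⟩ := h5
    rcases Fin.eq_zero_or_eq_succ c with h6 | ⟨τ, h6⟩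
    · exfalso
      rw [h6] at hc
      have hc1 : (0 : Fin k → ℤ) = x i.succ - x 0 := hc
      have h7 : x i.succ = x 0 := (sub_eq_zero.1 hc1.symm)
      exact Fin.succ_ne_zero i (hxi h7)
    · rw [h6] at hc
      exact ⟨τ, hc⟩
  choose σ hσ using h4
  refine ⟨σ, fun i i' h => ?_, hσ⟩
  have h5 := hσ i
  rw [h, hσ i'] at h5
  have h6 : x i'.succ = x i.succ := by
    have := congrArg (fun v => v + x 0) h5
    simpa using this
  exact (Fin.succ_injective _ (hxi h6)).symm

open Classical in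
/-- the `a` in a cube for which `(M a) ∘ σ ∈ E` -/
theorem fib_count {k j N : ℕ} (σ : Fin j → Fin k) (hσ : Function.Injective σ) (M : Matrix (Fin k) (Fin k) ℤ)
    (hM : M ∈ mats k N) (E : (Fin j → ℤ) → Prop) (b : Fin k → ℤ) (z : ℕ) (hz : 1 ≤ z) :
    ((Fintype.piFinset (fun i : Fin k => Ioc (b i) (b i + z))).filter (fun a => E (fun i => M.mulVec a (σ i)))).card ≤
      ((Fintype.piFinset (fun i : Fin j => Ioc (cor N M b z (σ i)) (cor N M b z (σ i) + (((2 * k * N + 1) * z : ℕ) : ℤ)))).filter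
        (fun u => E u)).card * ((2 * k * N + 1) * z) ^ (k - j) := by
  obtain ⟨P, hP⟩ : ∃ P : Finset ({i : Fin k // i ∉ Set.range σ} → ℤ), P = Fintype.piFinset (fun i : {i : Fin k // i ∉ Set.range σ} =>
    Ioc (cor N M b z i.1) (cor N M b z i.1 + (((2 * k * N + 1) * z : ℕ) : ℤ))) := ⟨_, rfl⟩
  have hPc : P.card = ((2 * k * N + 1) * z) ^ (k - j) := by
    rw [hP, Fintype.card_piFinset]
    have h1 : ∀ i : {i : Fin k // i ∉ Set.range σ}, (Ioc (cor N M b z i.1) (cor N M b z i.1 + (((2 * k * N + 1) * z : ℕ) : ℤ))).card =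
        (2 * k * N + 1) * z := by
      intro i
      rw [Int.card_Ioc]
      omega
    rw [prod_congr rfl fun i _ => h1 i, prod_const, card_univ]
    congr 1
    have h2 : Fintype.card {i : Fin k // i ∉ Set.range σ} = Fintype.card (Fin k) - Fintype.card {i : Fin k // i ∈ Set.range σ} :=
      Fintype.card_subtype_compl _
    rw [h2, Fintype.card_fin]
    congr 1
    have h3 : Fintype.card (Set.range σ) = Fintype.card (Fin j) := Set.card_range_of_injective hσ
    rw [Fintype.card_fin] at h3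
    exact (Fintype.card_congr (Equiv.refl _)).trans h3
  rw [← hPc, ← card_product]
  refine card_le_card_of_injOn (fun a => (fun i => M.mulVec a (σ i), fun i => M.mulVec a i.1)) (fun a ha => ?_) ?_
  · rw [mem_coe, mem_filter, Fintype.mem_piFinset] at ha
    have h1 := image_cube hM b a z hz ha.1
    rw [mem_coe, mem_product, mem_filter, Fintype.mem_piFinset, hP, Fintype.mem_piFinset]
    exact ⟨⟨fun i => h1 (σ i), ha.2⟩, fun i => h1 i.1⟩
  · intro a _ a' _ h
    apply mats_inj hM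
    show M.mulVec a = M.mulVec a'
    funext i
    by_cases hi : i ∈ Set.range σ
    · obtain ⟨i', rfl⟩ := hi
      exact congrFun (congrArg Prod.fst h) i'
    · exact congrFun (congrArg Prod.snd h) ⟨i, hi⟩

/-- **fibres** -/
theorem small_fib {k N j : ℕ} (hN : 1 ≤ N) (x : Fin (j + 1) → Fin k → ℤ) (hx : ∀ i l, |x i l| ≤ N)
    (hA : AffineIndependent ℚ (fun i => rat (x i))) {Q : (Fin j → ℤ) → Prop} (hQ : Small Q) :
    Small (fun a => Q (fun i => ip (x i.succ) a - ip (x 0) a)) := by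
  classical
  obtain ⟨M, hM, σ, hσ, hMσ⟩ := fam_matrix hN x hx hA
  have hjk : j ≤ k := by
    have h1 := Fintype.card_le_of_injective σ hσ
    rwa [Fintype.card_fin, Fintype.card_fin] at h1
  intro ε hε
  obtain ⟨C, hC⟩ : ∃ C : ℕ, C = 2 * k * (2 * N) + 1 := ⟨_, rfl⟩
  have hC1 : (1 : ℝ) ≤ C := by
    have : 1 ≤ C := by omega
    exact_mod_cast this
  obtain ⟨X₀, hX⟩ := hQ (ε / (C : ℝ) ^ k) (by positivity)
  refine ⟨X₀ + 1, fun z b hz => ?_⟩
  have h1 := fib_count σ hσ M hM Q b z (by omega)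
  rw [← hC] at h1
  have h2 := hX (C * z) (fun i => cor (2 * N) M b z (σ i)) (by
    have : 1 ≤ C := by omega
    nlinarith)
  have h3 : (((Fintype.piFinset (fun l : Fin k => Ioc (b l) (b l + z))).filter (fun a => Q (fun i => ip (x i.succ) a - ip (x 0) a))).card : ℝ) ≤
      ((Fintype.piFinset (fun i : Fin k => Ioc (b i) (b i + z))).filter (fun a => Q (fun i => M.mulVec a (σ i)))).card := by
    refine Nat.cast_le.2 (cle fun a _ ha => ?_)
    have h4 : (fun i => M.mulVec a (σ i)) = (fun i => ip (x i.succ) a - ip (x 0) a) := by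
      funext i
      rw [← ip_sub, ← hMσ]
      rfl
    rw [h4]
    exact ha
  refine h3.trans ((Nat.cast_le.2 h1).trans ?_)
  have h5 : (((Fintype.piFinset (fun i : Fin j => Ioc (cor (2 * N) M b z (σ i)) (cor (2 * N) M b z (σ i) + ((C * z : ℕ) : ℤ)))).filter
        (fun u => Q u)).card : ℝ) ≤ ε / (C : ℝ) ^ k * ((C * z : ℕ) : ℝ) ^ j := by
    refine le_trans (Nat.cast_le.2 (cle fun a _ ha => ha)) h2
  rw [Nat.cast_mul]
  refine (mul_le_mul_of_nonneg_right h5 (Nat.cast_nonneg _)).trans (le_of_eq ?_)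
  have h6 : ((C * z : ℕ) : ℝ) ^ j * (((C * z) ^ (k - j) : ℕ) : ℝ) = ((C : ℝ)) ^ k * (z : ℝ) ^ k := by
    rw [Nat.cast_pow, ← pow_add, Nat.add_sub_cancel' hjk, Nat.cast_mul, mul_pow]
  have hC0 : (C : ℝ) ^ k ≠ 0 := by positivity
  calc ε / (C : ℝ) ^ k * ((C * z : ℕ) : ℝ) ^ j * (((C * z) ^ (k - j) : ℕ) : ℝ)
      = ε / (C : ℝ) ^ k * (((C * z : ℕ) : ℝ) ^ j * (((C * z) ^ (k - j) : ℕ) : ℝ)) := by ring
    _ = ε / (C : ℝ) ^ k * ((C : ℝ) ^ k * (z : ℝ) ^ k) := by rw [h6]
    _ = ε * (z : ℝ) ^ k := by field_simp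

/-- two distinct points have distinct scalar products with almost all `a` -/
theorem small_hyp {k N : ℕ} (hN : 1 ≤ N) (x y : Fin k → ℤ) (hx : ∀ l, |x l| ≤ N) (hy : ∀ l, |y l| ≤ N) (hxy : x ≠ y) :
    Small (fun a => ip x a = ip y a) := by
  have hA : AffineIndependent ℚ (fun i : Fin 2 => rat ((![y, x] : Fin 2 → Fin k → ℤ) i)) := by
    have h1 : rat y ≠ rat x := fun h => hxy (rat_injective h).symm
    have h2 := affineIndependent_of_ne ℚ h1
    have h3 : (fun i : Fin 2 => rat ((![y, x] : Fin 2 → Fin k → ℤ) i)) = ![rat y, rat x] := by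
      funext i
      fin_cases i
      · rfl
      · rfl
    rw [h3]
    exact h2
  refine small_mono (fun a ha => ?_) (small_fib hN (![y, x] : Fin 2 → Fin k → ℤ) (fun i l => ?_) hA small_zero)
  · show ip x a - ip y a = 0
    rw [ha, sub_self]
  · fin_cases i
    · exact hy l
    · exact hx l

end Pool.Agent.H34.CF
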