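import Pool.Agent.H48.EP.Csc
import Pool.Agent.H34.CF.Sm

/-!
# [H34 CF BS] One dilation for all affinely independent families, consecutive primes

`bohr_good`: almost all increasing tuples in a Bohr set are good (from `thm_inf`).
`cons_core`: almost all integer points `a` have a bounded `m` such that for ALL affinely independent families `x_0, .., x_j` of points of
the box `[-N, N] ^ k` with `x_0 a < .. < x_j a` the tuple `m (x_i - x_0) a` is good.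
-/

set_option autoImplicit false

namespace Pool.Agent.H34.CF

open Finset Filter Pool.Agent.H62.EX Pool.Agent.H34.EV

/-- the tuple `(0, a)` shows, for every set of gaps with at most one adjacent pair and some colour, infinitely often primes which
are consecutive for these gaps -/
def Gd {j r : ℕ} (W s₀ : ℕ) (χ : ℕ → Fin r) (a : Fin j → ℕ) : Prop :=
  ∀ G : Finset (Fin j), OnePair G → ∃ q : Fin r, {p : ℕ | Pat W s₀ χ q G (Fin.cons 0 a : Fin (j + 1) → ℕ) p}.Infinite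

/-- a tuple with many patterns along a sequence is good -/
private theorem good_of {k r D : ℕ} (W s₀ : ℕ) (χ : ℕ → Fin r) (𝓜 : Set ℕ) (h𝓜 : 𝓜.Infinite) (a : Fin k → ℕ)
    (ha : ∀ G : Finset (Fin k), OnePair G → ∃ (q : Fin r) (c : ℝ) (M₁ : ℕ), 0 < c ∧ ∀ M ∈ 𝓜, M₁ ≤ M →
          c * M ≤ Real.log M ^ D * ({n : ℕ | n < M ∧ Pat W s₀ χ q G (Fin.cons 0 a : Fin (k + 1) → ℕ)
            (Nat.nth Nat.Prime n)}.ncard : ℝ)) : Gd W s₀ χ a := by
  intro G hG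
  obtain ⟨q, c, M₁, hc, hM⟩ := ha G hG
  refine ⟨q, fun hfin => ?_⟩
  obtain ⟨T, hT⟩ : ∃ T : Set ℕ, T = {n : ℕ | Pat W s₀ χ q G (Fin.cons 0 a : Fin (k + 1) → ℕ) (Nat.nth Nat.Prime n)} := ⟨_, rfl⟩
  have hTfin : T.Finite := by
    refine Set.Finite.of_finite_image (hfin.subset ?_) ((Nat.nth_injective Nat.infinite_setOfPred_prime).injOn (s := T))
    rintro _ ⟨n, hn, rfl⟩
    rw [hT] at hn
    exact hn
  have hle : ∀ M : ℕ, ({n : ℕ | n < M ∧ Pat W s₀ χ q G (Fin.cons 0 a : Fin (k + 1) → ℕ) (Nat.nth Nat.Prime n)}.ncard : ℝ) ≤ T.ncard := by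
    intro M
    refine Nat.cast_le.2 (Set.ncard_le_ncard (fun n hn => ?_) hTfin)
    rw [hT]
    exact hn.2
  have hlog : Tendsto (fun M : ℕ => Real.log (M : ℝ) ^ D / (M : ℝ)) atTop (nhds 0) := by
    have h7 := (Real.isLittleO_pow_log_id_atTop (n := D)).tendsto_div_nhds_zero.comp tendsto_natCast_atTop_atTop (α := ℕ)
    exact h7
  obtain ⟨M₂, hM₂⟩ := eventually_atTop.1 ((tendsto_order.1 hlog).2 (c / (T.ncard + 1)) (by positivity))
  obtain ⟨M, hM𝓜, hMM⟩ := h𝓜.exists_gt (M₁ + M₂ + 1)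
  have hMpos : (0 : ℝ) < M := by
    have : 0 < M := by omega
    exact_mod_cast this
  have h8 := hM M hM𝓜 (by omega)
  have h9 := hM₂ M (by omega)
  rw [div_lt_iff₀ hMpos] at h9
  have h10 : 0 ≤ Real.log (M : ℝ) ^ D := pow_nonneg (Real.log_natCast_nonneg M) _
  have h11 : c * M ≤ c / (T.ncard + 1) * M * T.ncard := by
    calc c * M ≤ Real.log M ^ D * _ := h8
      _ ≤ Real.log M ^ D * T.ncard := mul_le_mul_of_nonneg_left (hle M) h10
      _ ≤ c / (T.ncard + 1) * M * T.ncard := mul_le_mul_of_nonneg_right h9.le (Nat.cast_nonneg _)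
  have h12 : c / (T.ncard + 1) * M * T.ncard < c * M := by
    have h13 : (0 : ℝ) ≤ (T.ncard : ℝ) := Nat.cast_nonneg _
    have h14 : c / ((T.ncard : ℝ) + 1) * M * T.ncard = c * M * (T.ncard / (T.ncard + 1)) := by ring
    rw [h14]
    have h15 : (T.ncard : ℝ) / (T.ncard + 1) < 1 := by
      rw [div_lt_one (by positivity)]
      linarith
    have h16 : 0 < c * M := mul_pos hc hMpos
    nlinarith
  exact absurd h11 (not_le.2 h12)

open Classical in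
/-- almost all increasing tuples of a Bohr set are good -/
theorem bohr_good (j r : ℕ) (hj : 1 ≤ j) (W s₀ : ℕ) (hW : 0 < W) (hs₀ : Nat.Coprime s₀ W) (χ : ℕ → Fin r) :
    ∃ (J : ℕ) (α : Fin J → ℝ) (ρ : ℝ), 0 < ρ ∧ ∀ ε : ℝ, 0 < ε → ∃ X₀ : ℕ, ∀ (z : ℕ) (b : Fin j → ℕ), X₀ ≤ z →
      (((Fintype.piFinset (fun i : Fin j => Icc (b i + 1) (b i + z))).filter (fun a : Fin j → ℕ => StrictMono a ∧
        (∀ i l, ∃ n : ℤ, |(a i : ℝ) * α l - n| < ρ) ∧ ¬ Gd W s₀ χ a)).card : ℝ) ≤ ε * (z : ℝ) ^ j := by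
  obtain ⟨D, h1⟩ := Pool.Agent.H34.EY.thm_inf j r hj
  obtain ⟨𝓜, -, h𝓜, J, α, ρ, hρ, H⟩ := h1 W s₀ hW hs₀ χ Set.univ Set.infinite_univ
  refine ⟨J, α, ρ, hρ, fun ε hε => ?_⟩
  obtain ⟨X₀, hX⟩ := H ε hε
  refine ⟨X₀, fun z b hz => le_trans (Nat.cast_le.2 (cle fun a _ ha => ?_)) (hX z b hz)⟩
  exact ⟨ha.1, ha.2.1, fun hg => ha.2.2 (good_of W s₀ χ 𝓜 h𝓜 a hg)⟩

/-- the tuples with a bad multiple -/
theorem small_bad {j r : ℕ} (W s₀ : ℕ) (χ : ℕ → Fin r) (J : ℕ) (α : Fin J → ℝ) (ρ : ℝ)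
    (H : ∀ ε : ℝ, 0 < ε → ∃ X₀ : ℕ, ∀ (z : ℕ) (b : Fin j → ℕ), X₀ ≤ z →
      ((@Finset.filter (Fin j → ℕ) (fun a : Fin j → ℕ => StrictMono a ∧
        (∀ i l, ∃ n : ℤ, |(a i : ℝ) * α l - n| < ρ) ∧ ¬ Gd W s₀ χ a) (Classical.decPred _)
          (Fintype.piFinset (fun i : Fin j => Icc (b i + 1) (b i + z)))).card : ℝ) ≤ ε * (z : ℝ) ^ j) (m : ℕ) (hm : 1 ≤ m) :
    Small (fun u : Fin j → ℤ => ∃ v : Fin j → ℕ, (∀ i, (v i : ℤ) = m * u i) ∧ (∀ i, 0 < v i) ∧ StrictMono v ∧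
      (∀ i l, ∃ n : ℤ, |(v i : ℝ) * α l - n| < ρ) ∧ ¬ Gd W s₀ χ v) := by
  classical
  intro ε hε
  have hm0 : (0 : ℝ) < m := by
    have : 0 < m := hm
    exact_mod_cast this
  obtain ⟨X₀, hX⟩ := H (ε / (m : ℝ) ^ j) (by positivity)
  refine ⟨X₀, fun z b hz => ?_⟩
  have h1 := hX (m * z) (fun i => ((m : ℤ) * b i).toNat) (hz.trans (Nat.le_mul_of_pos_left z (by omega)))
  have h2 : ε / (m : ℝ) ^ j * ((m * z : ℕ) : ℝ) ^ j = ε * (z : ℝ) ^ j := by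
    rw [Nat.cast_mul, mul_pow]
    have h3 : (m : ℝ) ^ j ≠ 0 := by positivity
    field_simp
  rw [h2] at h1
  have h1' : (((Fintype.piFinset (fun i : Fin j => Icc ((((m : ℤ) * b i).toNat) + 1) ((((m : ℤ) * b i).toNat) + m * z))).filter
      (fun a : Fin j → ℕ => StrictMono a ∧ (∀ i l, ∃ n : ℤ, |(a i : ℝ) * α l - n| < ρ) ∧ ¬ Gd W s₀ χ a)).card : ℝ) ≤
        ε * (z : ℝ) ^ j := le_trans (Nat.cast_le.2 (cle fun _ _ h => h)) h1
  refine le_trans (Nat.cast_le.2 ?_) h1'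
  refine card_le_card_of_injOn (fun u i => ((m : ℤ) * u i).toNat) (fun u hu => ?_) ?_
  · rw [mem_coe, mem_filter, Fintype.mem_piFinset] at hu
    obtain ⟨hu1, v, hv1, hv2, hv3, hv4, hv5⟩ := hu
    have hv : (fun i => ((m : ℤ) * u i).toNat) = v := by
      funext i
      rw [← hv1 i, Int.toNat_natCast]
    rw [mem_coe]
    show (fun i => ((m : ℤ) * u i).toNat) ∈ _
    rw [hv, mem_filter, Fintype.mem_piFinset]
    refine ⟨fun i => ?_, hv3, hv4, hv5⟩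
    have h4 := mem_Ioc.1 (hu1 i)
    have h5 := hv1 i
    have h6 := hv2 i
    have hm' : (0 : ℤ) < m := by exact_mod_cast hm
    have h7 : (m : ℤ) * b i < m * u i := mul_lt_mul_of_pos_left h4.1 hm'
    have h8 : (m : ℤ) * u i ≤ m * (b i + z) := mul_le_mul_of_nonneg_left h4.2 hm'.le
    rw [mul_add] at h8
    rw [mem_Icc]
    constructor
    · omega
    · have h9 : ((m * z : ℕ) : ℤ) = (m : ℤ) * z := by push_cast; rfl
      omega
  · intro u hu u' hu' h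
    rw [mem_coe, mem_filter] at hu hu'
    obtain ⟨-, v, hv1, -⟩ := hu
    obtain ⟨-, v', hv1', -⟩ := hu'
    funext i
    have h4 : ((m : ℤ) * u i).toNat = ((m : ℤ) * u' i).toNat := congrFun h i
    rw [← hv1 i, ← hv1' i, Int.toNat_natCast, Int.toNat_natCast] at h4
    have h5 : (m : ℤ) * u i = m * u' i := by
      rw [← hv1 i, ← hv1' i, h4]
    have hm' : (m : ℤ) ≠ 0 := by
      have : m ≠ 0 := by omega
      exact_mod_cast this
    exact mul_left_cancel₀ hm' h5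

/-- combinations of numbers near to integers -/
theorem near_comb {k N : ℕ} (x y a : Fin k → ℤ) (hx : ∀ l, |x l| ≤ N) (hy : ∀ l, |y l| ≤ N) (m : ℕ) (α ρ δ : ℝ) (hδ : 0 < δ)
    (hρ : δ * (2 * N * k + 1) ≤ ρ) (h : ∀ l, ∃ n : ℤ, |((m * (a l).natAbs : ℕ) : ℝ) * α - n| < δ) (v : ℕ)
    (hv : (v : ℤ) = m * (ip x a - ip y a)) : ∃ n : ℤ, |(v : ℝ) * α - n| < ρ := by
  have h1 : ∀ l, ∃ n : ℤ, |(m : ℝ) * (a l : ℝ) * α - n| < δ := by
    intro l
    obtain ⟨n, hn⟩ := h l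
    rcases Int.natAbs_eq (a l) with h2 | h2
    · refine ⟨n, ?_⟩
      have h3 : (a l : ℝ) = ((a l).natAbs : ℝ) := by
        calc (a l : ℝ) = ((((a l).natAbs : ℕ) : ℤ) : ℝ) := by rw [← h2]
          _ = _ := Int.cast_natCast _
      rw [h3]
      rw [Nat.cast_mul] at hn
      exact hn
    · refine ⟨-n, ?_⟩
      have h3 : (a l : ℝ) = -((a l).natAbs : ℝ) := by
        calc (a l : ℝ) = ((-(((a l).natAbs : ℕ) : ℤ) : ℤ) : ℝ) := by rw [← h2]
          _ = _ := by rw [Int.cast_neg, Int.cast_natCast]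
      rw [h3, Int.cast_neg]
      rw [Nat.cast_mul] at hn
      rw [← abs_neg]
      have h4 : -((m : ℝ) * -((a l).natAbs : ℝ) * α - -(n : ℝ)) = (m : ℝ) * ((a l).natAbs : ℝ) * α - n := by ring
      rw [h4]
      exact hn
  choose n hn using h1
  refine ⟨∑ l, (x l - y l) * n l, ?_⟩
  have h2 : (v : ℝ) * α - ((∑ l, (x l - y l) * n l : ℤ) : ℝ) = ∑ l, ((x l : ℝ) - y l) * ((m : ℝ) * (a l : ℝ) * α - n l) := by
    have h3 : (v : ℝ) = (m : ℝ) * ((∑ l, (x l : ℝ) * a l) - ∑ l, (y l : ℝ) * a l) := by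
      have h4 : ((v : ℤ) : ℝ) = ((m * (ip x a - ip y a) : ℤ) : ℝ) := by rw [hv]
      unfold ip at h4
      push_cast at h4
      exact h4
    rw [h3, ← sum_sub_distrib]
    push_cast
    rw [mul_sum, sum_mul, ← sum_sub_distrib]
    refine sum_congr rfl fun l _ => ?_
    ring
  rw [h2]
  have h3 : |∑ l, ((x l : ℝ) - y l) * ((m : ℝ) * (a l : ℝ) * α - n l)| ≤ ∑ _l : Fin k, 2 * N * δ := by
    refine (abs_sum_le_sum_abs _ _).trans (sum_le_sum fun l _ => ?_)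
    rw [abs_mul]
    have h4 : |(x l : ℝ) - y l| ≤ 2 * N := by
      have h5 : |(x l : ℝ)| ≤ N := by exact_mod_cast hx l
      have h6 : |(y l : ℝ)| ≤ N := by exact_mod_cast hy l
      rw [abs_le] at h5 h6 ⊢
      constructor <;> linarith [h5.1, h5.2, h6.1, h6.2]
    exact mul_le_mul h4 (hn l).le (abs_nonneg _) (by positivity)
  rw [sum_const, card_univ, Fintype.card_fin, nsmul_eq_mul] at h3
  refine lt_of_le_of_lt h3 (lt_of_lt_of_le ?_ hρ)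
  nlinarith

/-- **one dilation for all affinely independent families** -/
theorem cons_core (k N r : ℕ) (hk : 1 ≤ k) (hN : 1 ≤ N) (W s₀ : ℕ) (hW : 0 < W) (hs₀ : Nat.Coprime s₀ W) (χ : ℕ → Fin r) :
    ∃ m₂ : ℕ, Small (fun a : Fin k → ℤ => ¬ ∃ m : ℕ, 1 ≤ m ∧ m ≤ m₂ ∧ ∀ (j : ℕ) (x : Fin (j + 1) → Fin k → ℤ), 1 ≤ j →
      (∀ i l, |x i l| ≤ N) → AffineIndependent ℚ (fun i => rat (x i)) → StrictMono (fun i => ip (x i) a) →
        ∃ v : Fin j → ℕ, (∀ i, (v i : ℤ) = m * (ip (x i.succ) a - ip (x 0) a)) ∧ Gd W s₀ χ v) := by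
  classical
  choose J α ρ hρ H using fun j' : Fin k => bohr_good (j'.val + 1) r (by omega) W s₀ hW hs₀ χ
  have hne : Nonempty (Fin k) := ⟨⟨0, by omega⟩⟩
  obtain ⟨j₀, hj₀⟩ := Finite.exists_min ρ
  obtain ⟨δ, hδ⟩ : ∃ δ : ℝ, δ = ρ j₀ / (2 * N * k + 1) := ⟨_, rfl⟩
  have hδ0 : 0 < δ := by
    rw [hδ]
    have := hρ j₀
    positivity
  have hδρ : ∀ j', δ * (2 * N * k + 1) ≤ ρ j' := by
    intro j'
    refine le_trans (le_of_eq ?_) (hj₀ j')
    rw [hδ]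
    have h1 : (2 * (N : ℝ) * k + 1) ≠ 0 := by positivity
    field_simp
  let e : Fin (Fintype.card (Σ j' : Fin k, Fin (J j'))) ≃ (Σ j' : Fin k, Fin (J j')) := (Fintype.equivFin _).symm
  obtain ⟨m₂, hm₂, hdir⟩ := Pool.Agent.H48.EP.dirichlet_mul k (Fintype.card (Σ j' : Fin k, Fin (J j'))) δ hδ0
  refine ⟨m₂, ?_⟩
  obtain ⟨X, hX⟩ : ∃ X : ∀ j' : Fin k, Finset (Fin (j'.val + 1 + 1) → Fin k → ℤ), X = fun j' : Fin k =>
      (Fintype.piFinset (fun _ : Fin (j'.val + 1 + 1) => Fintype.piFinset (fun _ : Fin k => Icc (-(N : ℤ)) N))).filter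
        (fun x => AffineIndependent ℚ (fun i => rat (x i))) := ⟨_, rfl⟩
  have hXm : ∀ (j' : Fin k) (x : Fin (j'.val + 1 + 1) → Fin k → ℤ), x ∈ X j' ↔
      (∀ i l, |x i l| ≤ N) ∧ AffineIndependent ℚ (fun i => rat (x i)) := by
    intro j' x
    rw [hX]
    dsimp only
    rw [mem_filter, Fintype.mem_piFinset]
    refine and_congr ?_ Iff.rfl
    refine forall_congr' fun i => ?_
    rw [Fintype.mem_piFinset]
    refine forall_congr' fun l => ?_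
    rw [mem_Icc, abs_le]
  have key : Small (fun a : Fin k → ℤ => ∃ m ∈ Icc 1 m₂, ∃ j' ∈ (univ : Finset (Fin k)), ∃ x ∈ X j',
      ∃ v : Fin (j'.val + 1) → ℕ, (∀ i, (v i : ℤ) = m * (ip (x i.succ) a - ip (x 0) a)) ∧ (∀ i, 0 < v i) ∧ StrictMono v ∧
        (∀ i l, ∃ n : ℤ, |(v i : ℝ) * α j' l - n| < ρ j') ∧ ¬ Gd W s₀ χ v) := by
    refine small_union _ fun m hm => small_union _ fun j' _ => small_union _ fun x hx => ?_
    obtain ⟨hx1, hx2⟩ := (hXm j' x).1 hx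
    exact small_fib hN x hx1 hx2 (small_bad W s₀ χ (J j') (α j') (ρ j') (fun ε hε => by
      obtain ⟨X₀, hX₀⟩ := H j' ε hε
      exact ⟨X₀, fun z b hz => le_trans (Nat.cast_le.2 (cle fun a _ ha => ha)) (hX₀ z b hz)⟩) m (mem_Icc.1 hm).1)
  refine small_mono (fun a ha => ?_) key
  obtain ⟨m, hm1, hm2, hm3⟩ := hdir (fun i => α (e i).1 (e i).2) (fun l => (a l).natAbs)
  have h1 : ¬ ∀ (j : ℕ) (x : Fin (j + 1) → Fin k → ℤ), 1 ≤ j →
      (∀ i l, |x i l| ≤ N) → AffineIndependent ℚ (fun i => rat (x i)) → StrictMono (fun i => ip (x i) a) →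
        ∃ v : Fin j → ℕ, (∀ i, (v i : ℤ) = m * (ip (x i.succ) a - ip (x 0) a)) ∧ Gd W s₀ χ v :=
    fun h => ha ⟨m, hm1, hm2, h⟩
  push Not at h1
  obtain ⟨j, x, hj, hx1, hx2, hx3, hx4⟩ := h1
  have hjk : j ≤ k := by
    obtain ⟨M, -, σ, hσ, -⟩ := fam_matrix hN x hx1 hx2
    have h2 := Fintype.card_le_of_injective σ hσ
    rwa [Fintype.card_fin, Fintype.card_fin] at h2
  obtain ⟨j', rfl⟩ : ∃ j', j = j' + 1 := ⟨j - 1, by omega⟩
  have hm0 : (0 : ℤ) < m := by exact_mod_cast hm1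
  have hpos : ∀ i : Fin (j' + 1), 0 < (m : ℤ) * (ip (x i.succ) a - ip (x 0) a) := by
    intro i
    have h2 : ip (x 0) a < ip (x i.succ) a := hx3 (Fin.succ_pos i)
    exact mul_pos hm0 (by linarith)
  obtain ⟨v, hv⟩ : ∃ v : Fin (j' + 1) → ℕ, v = fun i => ((m : ℤ) * (ip (x i.succ) a - ip (x 0) a)).toNat := ⟨_, rfl⟩
  have hvi : ∀ i, (v i : ℤ) = m * (ip (x i.succ) a - ip (x 0) a) := by
    intro i
    rw [hv]
    exact Int.toNat_of_nonneg (hpos i).le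
  refine ⟨m, mem_Icc.2 ⟨hm1, hm2⟩, ⟨j', by omega⟩, mem_univ _, x, (hXm ⟨j', by omega⟩ x).2 ⟨hx1, hx2⟩, v, hvi, fun i => ?_, fun i i' hii => ?_,
    fun i l => ?_, hx4 v hvi⟩
  · have h2 := hpos i
    rw [← hvi i] at h2
    exact_mod_cast h2
  · have h2 : ip (x i.succ) a < ip (x i'.succ) a := hx3 (Fin.succ_lt_succ_iff.2 hii)
    have h3 : (v i : ℤ) < v i' := by
      rw [hvi, hvi]
      exact mul_lt_mul_of_pos_left (by linarith) hm0
    exact_mod_cast h3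
  · refine near_comb (x i.succ) (x 0) a (hx1 _) (hx1 _) m _ _ δ hδ0 (hδρ _) (fun l' => ?_) (v i) (hvi i)
    obtain ⟨n, hn⟩ := hm3 l' (e.symm ⟨⟨j', by omega⟩, l⟩)
    refine ⟨n, ?_⟩
    rw [Equiv.apply_symm_apply] at hn
    exact hn

end Pool.Agent.H34.CF
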