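import Pool.Agent.H34.CF.Fm

/-!
# [H34 CF FIN3] One dilation for all affinely independent sets of at most three points: consecutive primes of one colour
-/

set_option autoImplicit false

namespace Pool.Agent.H34.CF

open Finset Filter Pool.Agent.H62.EX Pool.Agent.H34.EV

/-- at most one point: Dirichlet's theorem -/
theorem one_run {k r : ℕ} (W s₀ : ℕ) (hW : 0 < W) (hs₀ : Nat.Coprime s₀ W) (χ : ℕ → Fin r) (F : Finset (Fin k → ℤ)) (hF : F.card ≤ 1)
    (m : ℕ) (a : Fin k → ℤ) : ∃ q : Fin r, {t : ℤ | Run W s₀ χ q F m a t}.Infinite := by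
  classical
  have h1 := Nat.infinite_setOfPred_prime_and_modEq (q := W) (a := s₀) hW.ne' hs₀
  obtain ⟨q, hq⟩ : ∃ q : Fin r, {p : ℕ | (p.Prime ∧ p ≡ s₀ [MOD W]) ∧ χ p = q}.Infinite := by
    by_contra hcon
    have h2 : ∀ q : Fin r, {p : ℕ | (p.Prime ∧ p ≡ s₀ [MOD W]) ∧ χ p = q}.Finite := fun q => by
      by_contra h
      exact hcon ⟨q, h⟩
    refine h1 ((Set.finite_iUnion h2).subset fun p hp => ?_)
    rw [Set.mem_iUnion]
    exact ⟨χ p, hp, rfl⟩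
  rcases Nat.le_one_iff_eq_zero_or_eq_one.1 hF with h | h
  · rw [card_eq_zero] at h
    refine ⟨q, Set.infinite_univ.mono fun t _ => ⟨fun x hx => ?_, fun p _ _ h3 => ?_⟩⟩
    · rw [h] at hx
      exact absurd hx (notMem_empty x)
    · obtain ⟨x, hx, -⟩ := h3
      rw [h] at hx
      exact absurd hx (notMem_empty x)
  · obtain ⟨x, hx⟩ := card_eq_one.1 h
    have hinj : Set.InjOn (fun p : ℕ => (p : ℤ) - m * ip x a) {p : ℕ | (p.Prime ∧ p ≡ s₀ [MOD W]) ∧ χ p = q} := by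
      intro p _ p' _ h
      have h1 : (p : ℤ) - m * ip x a = (p' : ℤ) - m * ip x a := h
      omega
    refine ⟨q, (hq.image hinj).mono ?_⟩
    rintro _ ⟨p, ⟨⟨hp1, hp2⟩, hp3⟩, rfl⟩
    show Run W s₀ χ q F m a ((p : ℤ) - m * ip x a)
    refine ⟨fun y hy => ?_, fun p' _ _ h3 h4 => ?_⟩
    · rw [hx, mem_singleton] at hy
      rw [hy]
      exact ⟨p, by ring, hp1, hp3, hp2⟩
    · obtain ⟨y, hy, h5⟩ := h3
      obtain ⟨y', hy', h6⟩ := h4
      rw [hx, mem_singleton] at hy hy'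
      rw [hy] at h5
      rw [hy'] at h6
      exact ⟨x, by rw [hx]; exact mem_singleton_self x, le_antisymm h6 h5⟩

/-- **one dilation for all affinely independent sets of at most three points** -/
theorem cons_fin3 (k N r : ℕ) (hk : 1 ≤ k) (W s₀ : ℕ) (hW : 0 < W) (hs₀ : Nat.Coprime s₀ W) (χ : ℕ → Fin r) :
    ∃ C : ℕ, Small (fun a : Fin k → ℤ => ¬ ∃ m : ℕ, 1 ≤ m ∧ m ≤ C ∧ ∀ F : Finset (Fin k → ℤ), (∀ x ∈ F, ∀ l, |x l| ≤ N) →
      AffineIndependent ℚ (fun x : F => rat (x : Fin k → ℤ)) → F.card ≤ 3 →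
        ∃ q : Fin r, {t : ℤ | Run W s₀ χ q F m a t}.Infinite) := by
  obtain ⟨C, hC⟩ := cons_fin k (N + 1) r hk (by omega) W s₀ hW hs₀ χ
  refine ⟨C, small_mono (fun a ha => ?_) hC⟩
  rintro ⟨m, hm1, hm2, hm3⟩
  refine ha ⟨m, hm1, hm2, fun F hF1 hF2 hF3 => ?_⟩
  by_cases h : F.card ≤ 1
  · exact one_run W s₀ hW hs₀ χ F h m a
  · refine hm3 F (fun x hx l => ?_) hF2 (by omega)
    have h1 := hF1 x hx l
    push_cast
    linarith

end Pool.Agent.H34.CF
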