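import Pool.Agent.H34.CF.Bs
import Pool.Agent.H48.EP.Gp2

/-!
# [H34 CF FM] One dilation for all affinely independent pairs and triples: consecutive primes of one colour
-/

set_option autoImplicit false

namespace Pool.Agent.H34.CF

open Finset Filter Pool.Agent.H62.EX Pool.Agent.H34.EV

/-- the points of `F` in the order of their scalar products with `a` -/
theorem sorted_enum {k j : ℕ} (F : Finset (Fin k → ℤ)) (a : Fin k → ℤ) (hF : F.card = j + 1)
    (hinj : ∀ x ∈ F, ∀ y ∈ F, ip x a = ip y a → x = y) :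
    ∃ x : Fin (j + 1) → Fin k → ℤ, (∀ i, x i ∈ F) ∧ StrictMono (fun i => ip (x i) a) ∧ ∀ y ∈ F, ∃ i, x i = y := by
  classical
  have hc : (F.image (fun x => ip x a)).card = j + 1 := by
    rw [card_image_of_injOn, hF]
    intro x hx y hy h
    exact hinj x hx y hy h
  obtain ⟨e, he⟩ : ∃ e : Fin (j + 1) ↪o ℤ, e = (F.image (fun x => ip x a)).orderEmbOfFin hc := ⟨_, rfl⟩
  have h1 : ∀ i, ∃ x ∈ F, ip x a = e i := by
    intro i
    have h2 := (F.image (fun x => ip x a)).orderEmbOfFin_mem hc i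
    rw [mem_image] at h2
    rw [he]
    exact h2
  choose x hx1 hx2 using h1
  refine ⟨x, hx1, fun i i' h => ?_, fun y hy => ?_⟩
  · show ip (x i) a < ip (x i') a
    rw [hx2, hx2]
    exact e.strictMono h
  · have h2 : ip y a ∈ Set.range e := by
      rw [he, range_orderEmbOfFin]
      exact mem_coe.2 (mem_image_of_mem _ hy)
    obtain ⟨i, hi⟩ := h2
    exact ⟨i, hinj _ (hx1 i) _ hy (by rw [hx2, hi])⟩

/-- a number in the range of a sequence is a term or lies strictly between two neighbours -/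
theorem between : ∀ {j : ℕ} (b : Fin (j + 1) → ℕ) (y : ℕ), b 0 ≤ y → y ≤ b (Fin.last j) →
    (∃ l, y = b l) ∨ ∃ l : Fin j, b l.castSucc < y ∧ y < b l.succ
  | 0, b, y, h0, h1 => Or.inl ⟨0, le_antisymm h1 h0⟩
  | j + 1, b, y, h0, h1 => by
    by_cases h : y ≤ b (Fin.last j).castSucc
    · rcases between (fun i : Fin (j + 1) => b i.castSucc) y h0 h with ⟨l, hl⟩ | ⟨l, hl1, hl2⟩
      · exact Or.inl ⟨_, hl⟩
      · exact Or.inr ⟨l.castSucc, hl1, hl2⟩
    · rcases h1.lt_or_eq with h2 | h2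
      · exact Or.inr ⟨Fin.last j, not_le.1 h, h2⟩
      · exact Or.inl ⟨_, h2⟩

theorem onePair_one : OnePair (univ : Finset (Fin 1)) := by
  intro i _ _ _ l _ _ _ _ _
  exact Subsingleton.elim _ _

/-- `t + m x a`, `x ∈ F`, are the primes of the colour `q` in an interval, and they are `≡ s₀ (mod W)` -/
def Run {k r : ℕ} (W s₀ : ℕ) (χ : ℕ → Fin r) (q : Fin r) (F : Finset (Fin k → ℤ)) (m : ℕ) (a : Fin k → ℤ) (t : ℤ) : Prop :=
  (∀ x ∈ F, ∃ p : ℕ, (p : ℤ) = t + m * ip x a ∧ p.Prime ∧ χ p = q ∧ p ≡ s₀ [MOD W]) ∧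
    ∀ p : ℕ, p.Prime → χ p = q → (∃ x ∈ F, t + m * ip x a ≤ p) → (∃ x ∈ F, (p : ℤ) ≤ t + m * ip x a) →
      ∃ x ∈ F, (p : ℤ) = t + m * ip x a

/-- a good tuple gives runs -/
theorem run_of_good {k j r : ℕ} {W s₀ : ℕ} {χ : ℕ → Fin r} (hG : OnePair (univ : Finset (Fin j))) (F : Finset (Fin k → ℤ)) (m : ℕ)
    (a : Fin k → ℤ) (x : Fin (j + 1) → Fin k → ℤ) (hx1 : ∀ i, x i ∈ F) (hx2 : StrictMono (fun i => ip (x i) a)) (hx3 : ∀ y ∈ F, ∃ i, x i = y)
    (v : Fin j → ℕ) (hv : ∀ i, (v i : ℤ) = m * (ip (x i.succ) a - ip (x 0) a)) (hg : Gd W s₀ χ v) :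
    ∃ q : Fin r, {t : ℤ | Run W s₀ χ q F m a t}.Infinite := by
  obtain ⟨q, hq⟩ := hg univ hG
  refine ⟨q, ?_⟩
  have hinj : Set.InjOn (fun p : ℕ => (p : ℤ) - m * ip (x 0) a) {p : ℕ | Pat W s₀ χ q univ (Fin.cons 0 v : Fin (j + 1) → ℕ) p} := by
    intro p _ p' _ h
    have h1 : (p : ℤ) - m * ip (x 0) a = (p' : ℤ) - m * ip (x 0) a := h
    omega
  refine (hq.image hinj).mono ?_
  rintro _ ⟨p, hp, rfl⟩
  obtain ⟨hp1, hp2⟩ := hp
  obtain ⟨b, hb⟩ : ∃ b : Fin (j + 1) → ℕ, b = Fin.cons 0 v := ⟨_, rfl⟩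
  rw [← hb] at hp1 hp2
  have hval : ∀ i, ((p + b i : ℕ) : ℤ) = (p : ℤ) - m * ip (x 0) a + m * ip (x i) a := by
    intro i
    rw [hb]
    rcases Fin.eq_zero_or_eq_succ i with h | ⟨i', h⟩
    · rw [h, Fin.cons_zero]
      push_cast
      ring
    · rw [h, Fin.cons_succ]
      push_cast
      rw [hv]
      ring
  show Run W s₀ χ q F m a ((p : ℤ) - m * ip (x 0) a)
  refine ⟨fun y hy => ?_, fun p' hp' hc h1 h2 => ?_⟩
  · obtain ⟨i, rfl⟩ := hx3 y hy
    exact ⟨p + b i, hval i, (hp1 i).1, (hp1 i).2.1, (hp1 i).2.2⟩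
  · obtain ⟨y, hy, h3⟩ := h1
    obtain ⟨y', hy', h4⟩ := h2
    obtain ⟨i, rfl⟩ := hx3 y hy
    obtain ⟨i', rfl⟩ := hx3 y' hy'
    rw [← hval] at h3 h4
    have hmono : Monotone (fun i => ip (x i) a) := hx2.monotone
    have hm' : (0 : ℤ) ≤ m := Nat.cast_nonneg _
    have h5 : p + b 0 ≤ p' := by
      have h6 : ((p + b 0 : ℕ) : ℤ) ≤ ((p + b i : ℕ) : ℤ) := by
        rw [hval, hval]
        have h7 : ip (x 0) a ≤ ip (x i) a := hmono (Fin.zero_le i)
        have := mul_le_mul_of_nonneg_left h7 hm'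
        linarith
      have h8 := h6.trans h3
      exact_mod_cast h8
    have h6 : p' ≤ p + b (Fin.last j) := by
      have h7 : ((p + b i' : ℕ) : ℤ) ≤ ((p + b (Fin.last j) : ℕ) : ℤ) := by
        rw [hval, hval]
        have h7 : ip (x i') a ≤ ip (x (Fin.last j)) a := hmono (Fin.le_last i')
        have := mul_le_mul_of_nonneg_left h7 hm'
        linarith
      have h8 := h4.trans h7
      exact_mod_cast h8
    rcases between (fun l => p + b l) p' h5 h6 with ⟨l, hl⟩ | ⟨l, hl1, hl2⟩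
    · exact ⟨x l, hx1 l, by rw [← hval, ← hl]⟩
    · exact absurd ⟨hp', hc⟩ (hp2 l (mem_univ _) p' hl1 hl2)

/-- **one dilation for all affinely independent pairs and triples** -/
theorem cons_fin (k N r : ℕ) (hk : 1 ≤ k) (hN : 1 ≤ N) (W s₀ : ℕ) (hW : 0 < W) (hs₀ : Nat.Coprime s₀ W) (χ : ℕ → Fin r) :
    ∃ C : ℕ, Small (fun a : Fin k → ℤ => ¬ ∃ m : ℕ, 1 ≤ m ∧ m ≤ C ∧ ∀ F : Finset (Fin k → ℤ), (∀ x ∈ F, ∀ l, |x l| ≤ N) →
      AffineIndependent ℚ (fun x : F => rat (x : Fin k → ℤ)) → F.card = 2 ∨ F.card = 3 →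
        ∃ q : Fin r, {t : ℤ | Run W s₀ χ q F m a t}.Infinite) := by
  classical
  obtain ⟨C, hC⟩ := cons_core k N r hk hN W s₀ hW hs₀ χ
  refine ⟨C, ?_⟩
  obtain ⟨Bx, hBx⟩ : ∃ Bx : Finset (Fin k → ℤ), Bx = Fintype.piFinset (fun _ : Fin k => Icc (-(N : ℤ)) N) := ⟨_, rfl⟩
  have hBm : ∀ x : Fin k → ℤ, x ∈ Bx ↔ ∀ l, |x l| ≤ N := by
    intro x
    rw [hBx, Fintype.mem_piFinset]
    refine forall_congr' fun l => ?_
    rw [mem_Icc, abs_le]
  have hhyp : Small (fun a : Fin k → ℤ => ∃ p ∈ (Bx ×ˢ Bx).filter (fun p => p.1 ≠ p.2), ip p.1 a = ip p.2 a) := by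
    refine small_union _ fun p hp => ?_
    rw [mem_filter, mem_product] at hp
    exact small_hyp hN p.1 p.2 ((hBm _).1 hp.1.1) ((hBm _).1 hp.1.2) hp.2
  have hboth := small_union (univ : Finset Bool) (P := fun c a => if c = true then (¬ ∃ m : ℕ, 1 ≤ m ∧ m ≤ C ∧
      ∀ (j : ℕ) (x : Fin (j + 1) → Fin k → ℤ), 1 ≤ j →
      (∀ i l, |x i l| ≤ N) → AffineIndependent ℚ (fun i => rat (x i)) → StrictMono (fun i => ip (x i) a) →
        ∃ v : Fin j → ℕ, (∀ i, (v i : ℤ) = m * (ip (x i.succ) a - ip (x 0) a)) ∧ Gd W s₀ χ v) else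
          ∃ p ∈ (Bx ×ˢ Bx).filter (fun p => p.1 ≠ p.2), ip p.1 a = ip p.2 a) (fun c _ => by
            cases c
            · refine small_mono (fun a ha => ?_) hhyp
              simpa using ha
            · refine small_mono (fun a ha => ?_) hC
              simpa using ha)
  refine small_mono (fun a ha => ?_) hboth
  by_cases h1 : ∃ p ∈ (Bx ×ˢ Bx).filter (fun p => p.1 ≠ p.2), ip p.1 a = ip p.2 a
  · exact ⟨false, mem_univ _, by simpa using h1⟩
  · refine ⟨true, mem_univ _, ?_⟩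
    rw [if_pos rfl]
    rintro ⟨m, hm1, hm2, hm3⟩
    refine ha ⟨m, hm1, hm2, fun F hF1 hF2 hF3 => ?_⟩
    have hinj : ∀ x ∈ F, ∀ y ∈ F, ip x a = ip y a → x = y := by
      intro x hx y hy h
      by_contra hne
      exact h1 ⟨(x, y), mem_filter.2 ⟨mem_product.2 ⟨(hBm _).2 (hF1 x hx), (hBm _).2 (hF1 y hy)⟩, hne⟩, h⟩
    have hgen : ∀ j : ℕ, 1 ≤ j → OnePair (univ : Finset (Fin j)) → F.card = j + 1 → ∃ q : Fin r, {t : ℤ | Run W s₀ χ q F m a t}.Infinite := by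
      intro j hj hG hFj
      obtain ⟨x, hx1, hx2, hx3⟩ := sorted_enum F a hFj hinj
      have hAx : AffineIndependent ℚ (fun i => rat (x i)) := by
        have hi : Function.Injective (fun i => (⟨x i, hx1 i⟩ : F)) := by
          intro i i' h
          have h2 : x i = x i' := congrArg Subtype.val h
          apply hx2.injective
          show ip (x i) a = ip (x i') a
          rw [h2]
        exact hF2.comp_embedding ⟨_, hi⟩
      obtain ⟨v, hv1, hv2⟩ := hm3 j x hj (fun i l => hF1 _ (hx1 i) l) hAx hx2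
      exact run_of_good hG F m a x hx1 hx2 hx3 v hv1 hv2
    rcases hF3 with h | h
    · exact hgen 1 (le_refl _) onePair_one h
    · exact hgen 2 (by norm_num) Pool.Agent.H48.EP.onePair_univ h

end Pool.Agent.H34.CF
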